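import Pool.Agent.helper70.QSD.SpecD

set_option linter.unusedVariables false

namespace Pool.Agent.helper70.QSD

open Pool.Agent.helper53.AU
open scoped Classical
open FirstOrder FirstOrder.Language

/-- uniformly definable properties -/
def DEF_UD {α : Type}
    (P : ∀ (K : Type) [Field K] [Ring.CompatibleRing K], (α → K) → Prop) : Prop :=
  ∃ φ : Language.ring.Formula α, ∀ (K : Type) [Field K] [Ring.CompatibleRing K] (v : α → K),
    φ.Realize v ↔ P K v

theorem DEF_congr {α : Type}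
    {P Q : ∀ (K : Type) [Field K] [Ring.CompatibleRing K], (α → K) → Prop} (hP : DEF_UD P)
    (h : ∀ (K : Type) [Field K] [Ring.CompatibleRing K] (v : α → K), P K v ↔ Q K v) :
    DEF_UD Q := by
  obtain ⟨φ, hφ⟩ := hP
  exact ⟨φ, fun K _ _ v => (hφ K v).trans (h K v)⟩

theorem DEF_eq {α : Type} (t₁ t₂ : Language.ring.Term α) :
    DEF_UD (α := α) (fun K _ _ v => t₁.realize v = t₂.realize v) :=
  ⟨t₁.equal t₂, fun K _ _ v => Formula.realize_equal⟩

theorem DEF_not {α : Type}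
    {P : ∀ (K : Type) [Field K] [Ring.CompatibleRing K], (α → K) → Prop} (hP : DEF_UD P) :
    DEF_UD (α := α) (fun K _ _ v => ¬ P K v) := by
  obtain ⟨φ, hφ⟩ := hP
  exact ⟨∼φ, fun K _ _ v => by rw [Formula.realize_not, hφ K v]⟩

theorem DEF_and {α : Type}
    {P Q : ∀ (K : Type) [Field K] [Ring.CompatibleRing K], (α → K) → Prop} (hP : DEF_UD P)
    (hQ : DEF_UD Q) : DEF_UD (α := α) (fun K _ _ v => P K v ∧ Q K v) := by
  obtain ⟨φ, hφ⟩ := hP
  obtain ⟨ψ, hψ⟩ := hQ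
  exact ⟨φ ⊓ ψ, fun K _ _ v => by rw [Formula.realize_inf, hφ K v, hψ K v]⟩

theorem DEF_or {α : Type}
    {P Q : ∀ (K : Type) [Field K] [Ring.CompatibleRing K], (α → K) → Prop} (hP : DEF_UD P)
    (hQ : DEF_UD Q) : DEF_UD (α := α) (fun K _ _ v => P K v ∨ Q K v) := by
  refine DEF_congr (DEF_not (DEF_and (DEF_not hP) (DEF_not hQ))) fun K _ _ v => ?_
  tauto

theorem DEF_imp {α : Type}
    {P Q : ∀ (K : Type) [Field K] [Ring.CompatibleRing K], (α → K) → Prop} (hP : DEF_UD P)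
    (hQ : DEF_UD Q) : DEF_UD (α := α) (fun K _ _ v => P K v → Q K v) := by
  refine DEF_congr (DEF_or (DEF_not hP) hQ) fun K _ _ v => ?_
  tauto

theorem DEF_iff {α : Type}
    {P Q : ∀ (K : Type) [Field K] [Ring.CompatibleRing K], (α → K) → Prop} (hP : DEF_UD P)
    (hQ : DEF_UD Q) : DEF_UD (α := α) (fun K _ _ v => (P K v ↔ Q K v)) := by
  refine DEF_congr (DEF_and (DEF_imp hP hQ) (DEF_imp hQ hP)) fun K _ _ v => ?_
  tauto

theorem DEF_ex {α β : Type} [Finite β]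
    {P : ∀ (K : Type) [Field K] [Ring.CompatibleRing K], (α ⊕ β → K) → Prop} (hP : DEF_UD P) :
    DEF_UD (α := α) (fun K _ _ v => ∃ y : β → K, P K (Sum.elim v y)) := by
  obtain ⟨φ, hφ⟩ := hP
  refine ⟨φ.iExs β, fun K _ _ v => ?_⟩
  rw [Formula.realize_iExs]
  exact exists_congr fun y => hφ K _

theorem DEF_all {α β : Type} [Finite β]
    {P : ∀ (K : Type) [Field K] [Ring.CompatibleRing K], (α ⊕ β → K) → Prop} (hP : DEF_UD P) :
    DEF_UD (α := α) (fun K _ _ v => ∀ y : β → K, P K (Sum.elim v y)) := by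
  refine DEF_congr (DEF_not (DEF_ex (DEF_not hP))) fun K _ _ v => ?_
  push Not
  rfl

theorem DEF_all1 {α : Type}
    {P : ∀ (K : Type) [Field K] [Ring.CompatibleRing K], (α ⊕ Unit → K) → Prop}
    (hP : DEF_UD P) :
    DEF_UD (α := α) (fun K _ _ v => ∀ w : K, P K (Sum.elim v (fun _ => w))) := by
  refine DEF_congr (DEF_all hP) fun K _ _ v => ?_
  constructor
  · intro h w
    exact h fun _ => w
  · intro h y
    have : y = fun _ => y () := by funext u; rfl
    rw [this]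
    exact h _

theorem DEF_iAnd {α ι : Type} [Finite ι]
    {P : ι → ∀ (K : Type) [Field K] [Ring.CompatibleRing K], (α → K) → Prop}
    (hP : ∀ i, DEF_UD (P i)) : DEF_UD (α := α) (fun K _ _ v => ∀ i, P i K v) := by
  choose φ hφ using hP
  refine ⟨Formula.iInf φ, fun K _ _ v => ?_⟩
  rw [Formula.realize_iInf]
  exact forall_congr' fun i => hφ i K v

theorem DEF_iOr {α ι : Type} [Finite ι]
    {P : ι → ∀ (K : Type) [Field K] [Ring.CompatibleRing K], (α → K) → Prop}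
    (hP : ∀ i, DEF_UD (P i)) : DEF_UD (α := α) (fun K _ _ v => ∃ i, P i K v) := by
  refine DEF_congr (DEF_not (DEF_iAnd fun i => DEF_not (hP i))) fun K _ _ v => ?_
  push Not
  rfl

theorem DEF_sub {α β : Type} (g : α → β)
    {P : ∀ (K : Type) [Field K] [Ring.CompatibleRing K], (α → K) → Prop} (hP : DEF_UD P) :
    DEF_UD (α := β) (fun K _ _ v => P K (v ∘ g)) := by
  obtain ⟨φ, hφ⟩ := hP
  exact ⟨φ.relabel g, fun K _ _ v => by rw [Formula.realize_relabel, hφ K _]⟩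

/-- equations between sums of variables -/
theorem DEF_zero {α : Type} (i : α) : DEF_UD (α := α) (fun K _ _ v => v i = 0) := by
  refine DEF_congr (DEF_eq (Term.var i) 0) fun K _ _ v => ?_
  simp

theorem DEF_e1 {α : Type} (i j : α) : DEF_UD (α := α) (fun K _ _ v => v i = v j) := by
  refine DEF_congr (DEF_eq (Term.var i) (Term.var j)) fun K _ _ v => ?_
  simp

theorem DEF_e2 {α : Type} (i j k : α) : DEF_UD (α := α) (fun K _ _ v => v i = v j + v k) := by
  refine DEF_congr (DEF_eq (Term.var i) (Term.var j + Term.var k)) fun K _ _ v => ?_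
  simp

theorem DEF_e3 {α : Type} (i j k l : α) :
    DEF_UD (α := α) (fun K _ _ v => v i = v j + v k + v l) := by
  refine DEF_congr (DEF_eq (Term.var i) (Term.var j + Term.var k + Term.var l))
    fun K _ _ v => ?_
  simp

theorem DEF_ind {α : Type} (i j k : α) :
    DEF_UD (α := α) (fun K _ _ v => Ind3 (v i) (v j) (v k)) := by
  unfold Ind3
  exact DEF_and (DEF_not (DEF_zero i)) (DEF_and (DEF_not (DEF_zero j))
    (DEF_and (DEF_not (DEF_e1 i j)) (DEF_and (DEF_not (DEF_zero k))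
      (DEF_and (DEF_not (DEF_e1 k i)) (DEF_and (DEF_not (DEF_e1 k j))
        (DEF_not (DEF_e2 k i j)))))))

theorem DEF_sp {α : Type} (i j k l : α) :
    DEF_UD (α := α) (fun K _ _ v => Sp3 (v i) (v j) (v k) (v l)) := by
  unfold Sp3
  exact DEF_or (DEF_zero l) (DEF_or (DEF_e1 l i) (DEF_or (DEF_e1 l j) (DEF_or (DEF_e1 l k)
    (DEF_or (DEF_e2 l i j) (DEF_or (DEF_e2 l i k) (DEF_or (DEF_e2 l j k)
      (DEF_e3 l i j k)))))))

theorem DEF_blk {α : Type} {r : ℕ} (θ : Language.ring.Formula (Fin 3 ⊕ Fin r)) (g : Fin r → α)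
    (i j k : α) :
    DEF_UD (α := α) (fun K _ _ v => Blk3 θ (v ∘ g) (v i) (v j) (v k)) := by
  have hθ : DEF_UD (α := Fin 3 ⊕ Fin r) (fun K _ _ v => θ.Realize v) :=
    ⟨θ, fun K _ _ v => Iff.rfl⟩
  have h1 : DEF_UD (α := α ⊕ Fin 3) (fun K _ _ v =>
      Sp3 (v (Sum.inl i)) (v (Sum.inl j)) (v (Sum.inl k)) (v (Sum.inr 0)) ∧
      Sp3 (v (Sum.inl i)) (v (Sum.inl j)) (v (Sum.inl k)) (v (Sum.inr 1)) ∧
      Sp3 (v (Sum.inl i)) (v (Sum.inl j)) (v (Sum.inl k)) (v (Sum.inr 2)) ∧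
      Ind3 (v (Sum.inr 0)) (v (Sum.inr 1)) (v (Sum.inr 2)) ∧
      θ.Realize (v ∘ (Sum.elim (fun s : Fin 3 => (Sum.inr s : α ⊕ Fin 3))
        (fun s : Fin r => Sum.inl (g s))))) :=
    DEF_and (DEF_sp _ _ _ _) (DEF_and (DEF_sp _ _ _ _) (DEF_and (DEF_sp _ _ _ _)
      (DEF_and (DEF_ind _ _ _) (DEF_sub _ hθ))))
  refine DEF_congr (DEF_ex h1) fun K _ _ v => ?_
  unfold Blk3
  constructor
  · rintro ⟨y, h2, h3, h4, h5, h6⟩
    refine ⟨y 0, y 1, y 2, h2, h3, h4, h5, ?_⟩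
    have e : (Sum.elim v y) ∘ (Sum.elim (fun s : Fin 3 => (Sum.inr s : α ⊕ Fin 3))
        (fun s : Fin r => Sum.inl (g s))) = Sum.elim ![y 0, y 1, y 2] (v ∘ g) := by
      funext s
      rcases s with s | s
      · fin_cases s <;> rfl
      · rfl
    rw [← e]
    exact h6
  · rintro ⟨u', v', w', h2, h3, h4, h5, h6⟩
    refine ⟨![u', v', w'], h2, h3, h4, h5, ?_⟩
    have e : (Sum.elim v ![u', v', w']) ∘ (Sum.elim (fun s : Fin 3 => (Sum.inr s : α ⊕ Fin 3))
        (fun s : Fin r => Sum.inl (g s))) = Sum.elim ![u', v', w'] (v ∘ g) := by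
      funext s
      rcases s with s | s
      · fin_cases s <;> rfl
      · rfl
    rw [e]
    exact h6

theorem DEF_finset {K : Type} (m : ℕ) (Q : K → Prop) :
    (∃ W : Finset K, W.card = m ∧ ∀ w, w ∈ W ↔ Q w) ↔
      ∃ y : Fin m → K, (∀ i j : Fin m, i ≠ j → ¬ y i = y j) ∧
        ∀ w, (∃ i, w = y i) ↔ Q w := by
  constructor
  · rintro ⟨W, hW, hQ⟩
    obtain e : Fin m ≃ W := (finCongr hW.symm).trans W.equivFin.symm
    refine ⟨fun i => (e i : K), fun i j hij h => hij (e.injective (Subtype.ext h)), fun w => ?_⟩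
    rw [← hQ w]
    constructor
    · rintro ⟨i, rfl⟩
      exact (e i).2
    · intro hw
      exact ⟨e.symm ⟨w, hw⟩, by simp⟩
  · rintro ⟨y, hy, hQ⟩
    have hinj : Function.Injective y := by
      intro i j h
      by_contra hij
      exact hy i j hij h
    refine ⟨Finset.univ.image y, ?_, fun w => ?_⟩
    · rw [Finset.card_image_of_injective _ hinj, Finset.card_univ, Fintype.card_fin]
    · rw [← hQ w, Finset.mem_image]
      constructor
      · rintro ⟨i, -, h⟩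
        exact ⟨i, h.symm⟩
      · rintro ⟨i, h⟩
        exact ⟨i, Finset.mem_univ _, h.symm⟩

theorem DEF : DEF_stmt := by
  intro r θ lam
  set m := 4 * lam with hm
  -- variables: parameters, then `u`, `v`, then `y : Fin m → K`, then `w`
  have h1 : DEF_UD (α := (((Fin r ⊕ Unit) ⊕ Unit) ⊕ Fin m) ⊕ Unit) (fun K _ _ v =>
      ((∃ i : Fin m, v (Sum.inr ()) = v (Sum.inl (Sum.inr i))) ↔
        (Ind3 (v (Sum.inl (Sum.inl (Sum.inl (Sum.inr ()))))) (v (Sum.inl (Sum.inl (Sum.inr ()))))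
            (v (Sum.inr ())) ∧
          Blk3 θ (v ∘ fun s : Fin r => Sum.inl (Sum.inl (Sum.inl (Sum.inl s))))
            (v (Sum.inl (Sum.inl (Sum.inl (Sum.inr ()))))) (v (Sum.inl (Sum.inl (Sum.inr ()))))
            (v (Sum.inr ()))))) :=
    DEF_iff (DEF_iOr fun i => DEF_e1 _ _) (DEF_and (DEF_ind _ _ _) (DEF_blk θ _ _ _ _))
  have h2 := DEF_all1 h1
  have h3 : DEF_UD (α := ((Fin r ⊕ Unit) ⊕ Unit) ⊕ Fin m) (fun K _ _ v =>
      ∀ i j : Fin m, i ≠ j → ¬ v (Sum.inr i) = v (Sum.inr j)) := by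
    refine DEF_iAnd fun i => DEF_iAnd fun j => ?_
    by_cases hij : i = j
    · refine DEF_congr (DEF_imp (DEF_not (DEF_e1 (Sum.inr i) (Sum.inr i)))
        (DEF_e1 (Sum.inr i) (Sum.inr i))) fun K _ _ v => ?_
      simp [hij]
    · refine DEF_congr (DEF_not (DEF_e1 (Sum.inr i) (Sum.inr j))) fun K _ _ v => ?_
      simp [hij]
  have h4 := DEF_ex (DEF_and h3 h2)
  have h5 : DEF_UD (α := (Fin r ⊕ Unit) ⊕ Unit) (fun K _ _ v =>
      v (Sum.inl (Sum.inr ())) ≠ 0 → v (Sum.inr ()) ≠ 0 →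
        v (Sum.inl (Sum.inr ())) ≠ v (Sum.inr ()) → _) :=
    DEF_imp (DEF_not (DEF_zero _)) (DEF_imp (DEF_not (DEF_zero _))
      (DEF_imp (DEF_not (DEF_e1 _ _)) h4))
  obtain ⟨φ, hφ⟩ := DEF_all1 (DEF_all1 h5)
  refine ⟨φ, fun K _ _ a => ?_⟩
  rw [hφ K a]
  unfold Reg4
  refine forall_congr' fun u => forall_congr' fun v => ?_
  refine imp_congr Iff.rfl (imp_congr Iff.rfl (imp_congr Iff.rfl ?_))
  rw [DEF_finset]
  rfl

end Pool.Agent.helper70.QSD
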